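import Mathlib

/-!
# MP_d8cfe3_al: the residue identity fails for p = 1

We compute the coefficient `L 1 t` of `x_0^{-1} ... x_4^{-1}` for `t = 3` and `t = 4` and compare
with the proposed product of three binomial coefficients.
-/

namespace Pool.Agent.Results.MP_d8cfe3_al.FailsAtOne

open Finset

/-- The generalised binomial coefficient `u (u-1) ... (u-k+1) / k!`. -/
def bin (u : ℚ) (k : ℕ) : ℚ := (∏ i ∈ range k, (u - i)) / (k.factorial : ℚ)

/-- A choice of one term in the expansion of every factor of `G_p H_p Δ_p`: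
* `lij`: the term `C(2p,l) x_i^{2p-l} (-x_j)^l` of `(x_i - x_j)^{2p}`;
* `k1`: the term `C(-4p,k) x_0^{-4p-k} (-x_1)^k` of `(x_0 - x_1)^{-4p}`;
* `k2`: the term `C(-4p,k) x_0^{-4p-k} (-x_2)^k` of `(x_0 - x_2)^{-4p}`;
* `k3`: the term `C(-4p,k) x_3^{-4p-k} (-x_0)^k` of `(x_3 - x_0)^{-4p}`;
* `a0`: the term `C(6p-2-2t,a) x_0^a` of `(1+x_0)^{6p-2-2t}`;
* `ai`: the term `C(t,a) x_i^a` of `(1+x_i)^t`, for `i = 1,2,3,4`;
* `n`: the term `C(n,4p-1) x_0^{n-4p+1} x_4^{-n-1}` of `Δ_p`. -/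
@[ext] structure Choice where
  l12 : ℕ
  l13 : ℕ
  l14 : ℕ
  l23 : ℕ
  l24 : ℕ
  l34 : ℕ
  k1 : ℕ
  k2 : ℕ
  k3 : ℕ
  a0 : ℕ
  a1 : ℕ
  a2 : ℕ
  a3 : ℕ
  a4 : ℕ
  n : ℤ

/-- The product of the coefficients of the chosen terms. -/
noncomputable def coef (p : ℕ) (t : ℚ) (c : Choice) : ℚ :=
  (bin (2 * p) c.l12 * (-1) ^ c.l12) * (bin (2 * p) c.l13 * (-1) ^ c.l13) *
  (bin (2 * p) c.l14 * (-1) ^ c.l14) * (bin (2 * p) c.l23 * (-1) ^ c.l23) *
  (bin (2 * p) c.l24 * (-1) ^ c.l24) * (bin (2 * p) c.l34 * (-1) ^ c.l34) *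
  (bin (-(4 * p)) c.k1 * (-1) ^ c.k1) * (bin (-(4 * p)) c.k2 * (-1) ^ c.k2) *
  (bin (-(4 * p)) c.k3 * (-1) ^ c.k3) *
  bin (6 * p - 2 - 2 * t) c.a0 * bin t c.a1 * bin t c.a2 * bin t c.a3 * bin t c.a4 *
  bin c.n (4 * p - 1)

/-- The total exponents of `x_0, ..., x_4` in the product of the chosen terms, including the
monomials `x_0^{8p-3}` and `x_i^{-4p}`, are all `-1`. -/
def Residue (p : ℕ) (c : Choice) : Prop :=
  (8 * (p : ℤ) - 3) + c.a0 + (-(4 * (p : ℤ)) - c.k1) + (-(4 * (p : ℤ)) - c.k2) + c.k3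
      + (c.n - 4 * p + 1) = -1 ∧
  -(4 * (p : ℤ)) + c.a1 + c.k1 + (2 * p - c.l12) + (2 * p - c.l13) + (2 * p - c.l14) = -1 ∧
  -(4 * (p : ℤ)) + c.a2 + c.k2 + c.l12 + (2 * p - c.l23) + (2 * p - c.l24) = -1 ∧
  -(4 * (p : ℤ)) + c.a3 + (-(4 * (p : ℤ)) - c.k3) + c.l13 + c.l23 + (2 * p - c.l34) = -1 ∧
  -(4 * (p : ℤ)) + c.a4 + c.l14 + c.l24 + c.l34 + (-c.n - 1) = -1

open Classical in
/-- `L_p(t)`: the coefficient of `x_0^{-1} x_1^{-1} x_2^{-1} x_3^{-1} x_4^{-1}` in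
`G_p H_p Δ_p`, i.e. the (finite) sum of the coefficients over all choices of one term from each
factor whose total exponents are all `-1`. -/
noncomputable def L (p : ℕ) (t : ℚ) : ℚ :=
  ∑ᶠ c : Choice, if Residue p c then coef p t c else 0

/-- The proposed product of binomial coefficients. -/
def rhs (p : ℕ) (t : ℚ) : ℚ :=
  bin (t + p + 1 / 2) (4 * p) * bin (t + 2 * p) (4 * p - 1) * bin t (4 * p - 1)

/-! ### Binomial coefficients -/

lemma bin_zero (u : ℚ) : bin u 0 = 1 := by simp [bin]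

lemma bin_succ (u : ℚ) (k : ℕ) : bin u (k + 1) = bin u k * (u - k) / (k + 1) := by
  unfold bin
  rw [prod_range_succ, Nat.factorial_succ]
  have h : (k.factorial : ℚ) ≠ 0 := by exact_mod_cast Nat.factorial_ne_zero k
  have h2 : ((k : ℚ) + 1) ≠ 0 := by positivity
  push_cast
  field_simp

lemma bin_nat_gt (T a : ℕ) (h : T < a) : bin (T : ℚ) a = 0 := by
  unfold bin
  rw [prod_eq_zero (mem_range.mpr h) (by simp)]
  simp

lemma bin_two_zero : bin 2 0 * (-1) ^ 0 = 1 := by simp [bin]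
lemma bin_two_one : bin 2 1 * (-1) ^ 1 = -2 := by simp [bin]
lemma bin_two_two : bin 2 2 * (-1) ^ 2 = 1 := by
  simp [bin, prod_range_succ, Nat.factorial]; norm_num

/-- integer version of `C(2,l) (-1)^l` -/
def b2 (l : ℕ) : ℤ := if l = 1 then -2 else 1

lemma bin_two (l : ℕ) (h : l < 3) : bin 2 l * (-1) ^ l = (b2 l : ℚ) := by
  interval_cases l
  · rw [bin_two_zero]; simp [b2]
  · rw [bin_two_one]; simp [b2]
  · rw [bin_two_two]; simp [b2]

lemma bin_neg_four (k : ℕ) :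
    bin (-4) k * (-1) ^ k = ((k : ℚ) + 1) * (k + 2) * (k + 3) / 6 := by
  induction k with
  | zero => simp [bin]; norm_num
  | succ k ih =>
    rw [bin_succ, pow_succ]
    have h2 : ((k : ℚ) + 1) ≠ 0 := by positivity
    have : bin (-4) k * (-4 - (k : ℚ)) / (k + 1) * ((-1) ^ k * -1)
        = (bin (-4) k * (-1) ^ k) * (k + 4) / (k + 1) := by field_simp; ring
    rw [this, ih]
    push_cast
    field_simp
    ring

lemma bin_neg_two (k : ℕ) :
    bin (-2) k * (-1) ^ k = ((k : ℚ) + 1) := by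
  induction k with
  | zero => simp [bin]
  | succ k ih =>
    rw [bin_succ, pow_succ]
    have h2 : ((k : ℚ) + 1) ≠ 0 := by positivity
    have : bin (-2) k * (-2 - (k : ℚ)) / (k + 1) * ((-1) ^ k * -1)
        = (bin (-2) k * (-1) ^ k) * (k + 2) / (k + 1) := by field_simp; ring
    rw [this, ih]
    push_cast
    field_simp
    ring

lemma bin_three (u : ℚ) : bin u 3 = u * (u - 1) * (u - 2) / 6 := by
  simp [bin, prod_range_succ, Nat.factorial]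

/-- the sign `(-1)^m` -/
def sg (m : ℕ) : ℤ := if m % 2 = 0 then 1 else -1

lemma sg_eq (m : ℕ) : (sg m : ℚ) = (-1) ^ m := by
  unfold sg
  rcases Nat.even_or_odd m with h | h
  · rw [if_pos (Nat.even_iff.mp h), h.neg_one_pow]; simp
  · rw [if_neg (by rw [Nat.odd_iff.mp h]; norm_num), h.neg_one_pow]; norm_num

/-- `6 C(4-2T, m)` for `T = 3` and `T = 4`. -/
def w (T m : ℕ) : ℤ :=
  sg m * (if T = 3 then 6 * ((m : ℤ) + 1) else ((m : ℤ) + 1) * (m + 2) * (m + 3))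

lemma w_eq (T m : ℕ) (hT : T = 3 ∨ T = 4) :
    bin (6 * ((1 : ℕ) : ℚ) - 2 - 2 * (T : ℚ)) m = (w T m : ℚ) / 6 := by
  have hs : ((-1 : ℚ)) ^ m * (-1) ^ m = 1 := by
    rw [← mul_pow]; simp
  rcases hT with rfl | rfl
  · have h := bin_neg_two m
    have e : (6 * ((1 : ℕ) : ℚ) - 2 - 2 * ((3 : ℕ) : ℚ)) = -2 := by norm_num
    rw [e]
    unfold w
    push_cast
    rw [sg_eq]
    have : bin (-2) m = (bin (-2) m * (-1) ^ m) * (-1) ^ m := by
      rw [mul_assoc, hs, mul_one]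
    rw [this, h]; ring
  · have h := bin_neg_four m
    have e : (6 * ((1 : ℕ) : ℚ) - 2 - 2 * ((4 : ℕ) : ℚ)) = -4 := by norm_num
    rw [e]
    unfold w
    push_cast
    rw [sg_eq]
    have : bin (-4) m = (bin (-4) m * (-1) ^ m) * (-1) ^ m := by
      rw [mul_assoc, hs, mul_one]
    rw [this, h]
    ring

/-- `C(T,a)` as an integer for `a ≤ T`, `T ≤ 4`. -/
def ch (T a : ℕ) : ℤ := (T.choose a : ℤ)

lemma ch_eq (T a : ℕ) : bin (T : ℚ) a = (ch T a : ℚ) := by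
  unfold ch
  induction a with
  | zero => simp [bin]
  | succ a ih =>
    rw [bin_succ, ih]
    have h2 : ((a : ℚ) + 1) ≠ 0 := by positivity
    rcases Nat.lt_or_ge T a with h | h
    · rw [Nat.choose_eq_zero_of_lt h, Nat.choose_eq_zero_of_lt (by omega)]; simp
    · have h3 := Nat.choose_succ_right_eq T a
      have h4 : ((T.choose (a + 1) : ℕ) : ℚ) * (a + 1) = (T.choose a : ℚ) * (T - a) := by
        rw [← Nat.cast_sub h]
        exact_mod_cast h3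
      rw [div_eq_iff h2]
      push_cast
      linarith

/-! ### Parametrising the choices that contribute -/

abbrev Idx := ((ℕ × ℕ × ℕ) × (ℕ × ℕ × ℕ)) × ((ℕ × ℕ) × (ℕ × ℕ))

/-- The unique candidate choice for given `l`'s and `a_1, ..., a_4`. -/
def phi (j : Idx) : Choice :=
  let l12 := j.1.1.1
  let l13 := j.1.1.2.1
  let l14 := j.1.1.2.2
  let l23 := j.1.2.1
  let l24 := j.1.2.2.1
  let l34 := j.1.2.2.2
  let a1 := j.2.1.1
  let a2 := j.2.1.2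
  let a3 := j.2.2.1
  let a4 := j.2.2.2
  let k1 := l12 + l13 + l14 - (3 + a1)
  let k2 := l23 + l24 - (l12 + 1 + a2)
  let k3 := a3 + l13 + l23 - (l34 + 5)
  let n : ℤ := (a4 + l14 + l24 + l34 : ℤ) - 4
  { l12 := l12, l13 := l13, l14 := l14, l23 := l23, l24 := l24, l34 := l34,
    k1 := k1, k2 := k2, k3 := k3,
    a0 := (5 + (k1 : ℤ) + k2 - k3 - n).toNat, a1 := a1, a2 := a2, a3 := a3, a4 := a4, n := n }

lemma phi_inj : Function.Injective phi := by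
  rintro ⟨⟨⟨a, b, c⟩, ⟨d, e, f⟩⟩, ⟨⟨g, h⟩, ⟨i, j⟩⟩⟩ ⟨⟨⟨a', b', c'⟩, ⟨d', e', f'⟩⟩, ⟨⟨g', h'⟩, ⟨i', j'⟩⟩⟩ H
  simp only [phi, Choice.mk.injEq] at H
  obtain ⟨h1, h2, h3, h4, h5, h6, -, -, -, -, h7, h8, h9, h10, -⟩ := H
  subst h1 h2 h3 h4 h5 h6 h7 h8 h9 h10
  rfl

/-- The finite box of indices. -/
def box (T : ℕ) : Finset Idx :=
  ((range 3 ×ˢ (range 3 ×ˢ range 3)) ×ˢ (range 3 ×ˢ (range 3 ×ˢ range 3))) ×ˢ
    ((range (T + 1) ×ˢ range (T + 1)) ×ˢ (range (T + 1) ×ˢ range (T + 1)))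

lemma coef_zero_of_l (t : ℚ) (c : Choice)
    (h : 3 ≤ c.l12 ∨ 3 ≤ c.l13 ∨ 3 ≤ c.l14 ∨ 3 ≤ c.l23 ∨ 3 ≤ c.l24 ∨ 3 ≤ c.l34) :
    coef 1 t c = 0 := by
  have key : ∀ l : ℕ, 3 ≤ l → bin (2 * ((1 : ℕ) : ℚ)) l = 0 := by
    intro l hl
    have := bin_nat_gt 2 l (by omega)
    simpa using this
  unfold coef
  rcases h with h | h | h | h | h | h <;> rw [key _ h] <;> simp

lemma coef_zero_of_a (T : ℕ) (c : Choice)
    (h : T < c.a1 ∨ T < c.a2 ∨ T < c.a3 ∨ T < c.a4) :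
    coef 1 T c = 0 := by
  unfold coef
  rcases h with h | h | h | h <;> rw [bin_nat_gt _ _ h] <;> simp

open Classical in
lemma support_sub (T : ℕ) :
    (Function.support fun c : Choice => if Residue 1 c then coef 1 (T : ℚ) c else 0) ⊆
      ((box T).image phi : Finset Choice) := by
  intro c hc
  rw [Function.mem_support] at hc
  have hR : Residue 1 c := by
    by_contra hn
    exact hc (if_neg hn)
  rw [if_pos hR] at hc
  have hl : ¬ (3 ≤ c.l12 ∨ 3 ≤ c.l13 ∨ 3 ≤ c.l14 ∨ 3 ≤ c.l23 ∨ 3 ≤ c.l24 ∨ 3 ≤ c.l34) :=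
    fun h => hc (coef_zero_of_l _ c h)
  have ha : ¬ (T < c.a1 ∨ T < c.a2 ∨ T < c.a3 ∨ T < c.a4) :=
    fun h => hc (coef_zero_of_a T c h)
  obtain ⟨r0, r1, r2, r3, r4⟩ := hR
  push Not at hl ha
  rw [Finset.mem_coe, Finset.mem_image]
  refine ⟨(((c.l12, c.l13, c.l14), (c.l23, c.l24, c.l34)), ((c.a1, c.a2), (c.a3, c.a4))), ?_, ?_⟩
  · simp only [box, mem_product, mem_range]
    omega
  · ext
    all_goals simp only [phi]
    all_goals omega

/-- The integer term (times `6^5`). -/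
def tz (T l12 l13 l14 l23 l24 l34 a1 a2 a3 a4 : ℕ) : ℤ :=
  let k1 : ℕ := l12 + l13 + l14 - (3 + a1)
  let k2 : ℕ := l23 + l24 - (l12 + 1 + a2)
  let k3 : ℕ := a3 + l13 + l23 - (l34 + 5)
  let n : ℤ := (a4 + l14 + l24 + l34 : ℕ) - 4
  let m : ℤ := 5 + (k1 : ℤ) + k2 - k3 - n
  if 0 ≤ m then
    b2 l12 * b2 l13 * b2 l14 * b2 l23 * b2 l24 * b2 l34 *
    (((k1 : ℤ) + 1) * (k1 + 2) * (k1 + 3)) * (((k2 : ℤ) + 1) * (k2 + 2) * (k2 + 3)) *
    (((k3 : ℤ) + 1) * (k3 + 2) * (k3 + 3)) *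
    w T m.toNat * ch T a1 * ch T a2 * ch T a3 * ch T a4 * (n * (n - 1) * (n - 2))
  else 0

open Classical in
lemma term_eq (T : ℕ) (hT : T = 3 ∨ T = 4) (l12 l13 l14 l23 l24 l34 a1 a2 a3 a4 : ℕ)
    (h12 : l12 < 3) (h13 : l13 < 3) (h14 : l14 < 3) (h23 : l23 < 3) (h24 : l24 < 3)
    (h34 : l34 < 3) :
    (if Residue 1 (phi (((l12, l13, l14), (l23, l24, l34)), ((a1, a2), (a3, a4)))) then
      coef 1 (T : ℚ) (phi (((l12, l13, l14), (l23, l24, l34)), ((a1, a2), (a3, a4)))) else 0) =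
    (((if 3 + a1 ≤ l12 + l13 + l14 then
      (if l12 + 1 + a2 ≤ l23 + l24 then
        (if l34 + 5 ≤ a3 + l13 + l23 then tz T l12 l13 l14 l23 l24 l34 a1 a2 a3 a4 else 0)
        else 0) else 0 : ℤ) : ℚ)) / 7776 := by
  by_cases c1 : 3 + a1 ≤ l12 + l13 + l14
  swap
  · rw [if_neg c1, if_neg]
    · simp
    · rintro ⟨-, r1, -⟩
      simp only [phi] at r1
      omega
  by_cases c2 : l12 + 1 + a2 ≤ l23 + l24
  swap
  · rw [if_pos c1, if_neg c2, if_neg]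
    · simp
    · rintro ⟨-, -, r2, -⟩
      simp only [phi] at r2
      omega
  by_cases c3 : l34 + 5 ≤ a3 + l13 + l23
  swap
  · rw [if_pos c1, if_pos c2, if_neg c3, if_neg]
    · simp
    · rintro ⟨-, -, -, r3, -⟩
      simp only [phi] at r3
      omega
  rw [if_pos c1, if_pos c2, if_pos c3]
  obtain ⟨k1, hk1⟩ : ∃ k1, k1 = l12 + l13 + l14 - (3 + a1) := ⟨_, rfl⟩
  obtain ⟨k2, hk2⟩ : ∃ k2, k2 = l23 + l24 - (l12 + 1 + a2) := ⟨_, rfl⟩
  obtain ⟨k3, hk3⟩ : ∃ k3, k3 = a3 + l13 + l23 - (l34 + 5) := ⟨_, rfl⟩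
  obtain ⟨n, hn⟩ : ∃ n : ℤ, n = (a4 + l14 + l24 + l34 : ℤ) - 4 := ⟨_, rfl⟩
  have htz : tz T l12 l13 l14 l23 l24 l34 a1 a2 a3 a4 =
      if 0 ≤ 5 + (k1 : ℤ) + k2 - k3 - n then
      b2 l12 * b2 l13 * b2 l14 * b2 l23 * b2 l24 * b2 l34 *
      (((k1 : ℤ) + 1) * (k1 + 2) * (k1 + 3)) * (((k2 : ℤ) + 1) * (k2 + 2) * (k2 + 3)) *
      (((k3 : ℤ) + 1) * (k3 + 2) * (k3 + 3)) *
      w T (5 + (k1 : ℤ) + k2 - k3 - n).toNat * ch T a1 * ch T a2 * ch T a3 * ch T a4 *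
      (n * (n - 1) * (n - 2)) else 0 := by
    simp only [tz, hk1, hk2, hk3, hn]
    push_cast
    rfl
  have hphi : phi (((l12, l13, l14), (l23, l24, l34)), ((a1, a2), (a3, a4))) =
      { l12 := l12, l13 := l13, l14 := l14, l23 := l23, l24 := l24, l34 := l34,
        k1 := k1, k2 := k2, k3 := k3,
        a0 := (5 + (k1 : ℤ) + k2 - k3 - n).toNat, a1 := a1, a2 := a2, a3 := a3, a4 := a4,
        n := n } := by
    simp only [phi, hk1, hk2, hk3, hn]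
  rw [htz, hphi]
  by_cases c4 : 0 ≤ 5 + (k1 : ℤ) + k2 - k3 - n
  swap
  · rw [if_neg c4, if_neg]
    · simp
    · rintro ⟨r0, -⟩
      simp only at r0
      have := Int.toNat_of_nonpos (le_of_lt (not_le.mp c4))
      omega
  rw [if_pos c4, if_pos]
  · simp only [coef]
    have e2 : (2 * ((1 : ℕ) : ℚ)) = 2 := by norm_num
    have e4 : (-(4 * ((1 : ℕ) : ℚ))) = -4 := by norm_num
    have e3 : (4 * 1 - 1 : ℕ) = 3 := by norm_num
    rw [e2, e4, e3, bin_two _ h12, bin_two _ h13, bin_two _ h14, bin_two _ h23, bin_two _ h24,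
      bin_two _ h34, bin_neg_four, bin_neg_four, bin_neg_four, w_eq T _ hT, ch_eq, ch_eq, ch_eq,
      ch_eq, bin_three]
    push_cast
    ring
  · refine ⟨?_, ?_, ?_, ?_, ?_⟩ <;> simp only <;> omega

/-- The nested integer sum. -/
def S (T : ℕ) : ℤ :=
  ∑ l12 ∈ range 3, ∑ l13 ∈ range 3, ∑ l14 ∈ range 3,
  ∑ l23 ∈ range 3, ∑ l24 ∈ range 3, ∑ l34 ∈ range 3,
  ∑ a1 ∈ range (T + 1), if 3 + a1 ≤ l12 + l13 + l14 then
    ∑ a2 ∈ range (T + 1), if l12 + 1 + a2 ≤ l23 + l24 then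
      ∑ a3 ∈ range (T + 1), if l34 + 5 ≤ a3 + l13 + l23 then
        ∑ a4 ∈ range (T + 1), tz T l12 l13 l14 l23 l24 l34 a1 a2 a3 a4
      else 0
    else 0
  else 0

open Classical in
lemma L_eq (T : ℕ) (hT : T = 3 ∨ T = 4) : L 1 (T : ℚ) = (S T : ℚ) / 7776 := by
  unfold L
  rw [finsum_eq_sum_of_support_subset _ (support_sub T), sum_image (fun a _ b _ h => phi_inj h)]
  unfold box S
  simp only [sum_product]
  push_cast
  rw [sum_div]; refine sum_congr rfl fun l12 h12 => ?_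
  rw [sum_div]; refine sum_congr rfl fun l13 h13 => ?_
  rw [sum_div]; refine sum_congr rfl fun l14 h14 => ?_
  rw [sum_div]; refine sum_congr rfl fun l23 h23 => ?_
  rw [sum_div]; refine sum_congr rfl fun l24 h24 => ?_
  rw [sum_div]; refine sum_congr rfl fun l34 h34 => ?_
  rw [sum_div]; refine sum_congr rfl fun a1 _ => ?_
  rw [mem_range] at h12 h13 h14 h23 h24 h34
  by_cases c1 : 3 + a1 ≤ l12 + l13 + l14
  swap
  · rw [if_neg c1, zero_div]
    refine sum_eq_zero fun a2 _ => sum_eq_zero fun a3 _ => sum_eq_zero fun a4 _ => ?_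
    rw [term_eq T hT _ _ _ _ _ _ _ _ _ _ h12 h13 h14 h23 h24 h34, if_neg c1]; simp
  rw [if_pos c1, sum_div]
  refine sum_congr rfl fun a2 _ => ?_
  by_cases c2 : l12 + 1 + a2 ≤ l23 + l24
  swap
  · rw [if_neg c2, zero_div]
    refine sum_eq_zero fun a3 _ => sum_eq_zero fun a4 _ => ?_
    rw [term_eq T hT _ _ _ _ _ _ _ _ _ _ h12 h13 h14 h23 h24 h34, if_pos c1, if_neg c2]; simp
  rw [if_pos c2, sum_div]
  refine sum_congr rfl fun a3 _ => ?_
  by_cases c3 : l34 + 5 ≤ a3 + l13 + l23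
  swap
  · rw [if_neg c3, zero_div]
    refine sum_eq_zero fun a4 _ => ?_
    rw [term_eq T hT _ _ _ _ _ _ _ _ _ _ h12 h13 h14 h23 h24 h34, if_pos c1, if_pos c2,
      if_neg c3]; simp
  rw [if_pos c3, sum_div]
  refine sum_congr rfl fun a4 _ => ?_
  rw [term_eq T hT _ _ _ _ _ _ _ _ _ _ h12 h13 h14 h23 h24 h34, if_pos c1, if_pos c2,
      if_pos c3]

lemma S_three : S 3 = -513216 := by decide +kernel

lemma S_four : S 4 = -13810176 := by decide +kernel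

lemma L_three : L 1 3 = -66 := by
  have h := L_eq 3 (Or.inl rfl)
  rw [S_three] at h
  have e : ((3 : ℕ) : ℚ) = 3 := by norm_num
  rw [e] at h
  rw [h]; norm_num

lemma L_four : L 1 4 = -1776 := by
  have h := L_eq 4 (Or.inr rfl)
  rw [S_four] at h
  have e : ((4 : ℕ) : ℚ) = 4 := by norm_num
  rw [e] at h
  rw [h]; norm_num

/-- **The residue identity fails for `p = 1`.**  With `L` the residue of the problem,
`L 1 3 = -66` and `L 1 4 = -1776`, so `L 1` is not a constant multiple of the proposed product of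
binomial coefficients, and the assertion of Q1 is false. -/
theorem result :
    L 1 3 = -66 ∧ L 1 4 = -1776 ∧
    (¬ ∃ A : ℚ, ∀ t : ℚ, L 1 t = A * rhs 1 t) ∧
    ¬ ∀ p : ℕ, 1 ≤ p → ∃ A : ℚ, A ≠ 0 ∧ ∀ t : ℚ, L p t = A * rhs p t := by
  have key : ¬ ∃ A : ℚ, ∀ t : ℚ, L 1 t = A * rhs 1 t := by
    rintro ⟨A, hA⟩
    have h3 := hA 3
    have h4 := hA 4
    rw [L_three] at h3
    rw [L_four] at h4
    have r3 : rhs 1 3 = 1575 / 64 := by
      simp only [rhs, bin, prod_range_succ, prod_range_zero, Nat.factorial]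
      norm_num
    have r4 : rhs 1 4 = 5775 / 8 := by
      simp only [rhs, bin, prod_range_succ, prod_range_zero, Nat.factorial]
      norm_num
    rw [r3] at h3
    rw [r4] at h4
    linarith
  exact ⟨L_three, L_four, key, fun h => by
    obtain ⟨A, -, hA⟩ := h 1 le_rfl
    exact key ⟨A, hA⟩⟩

end Pool.Agent.Results.MP_d8cfe3_al.FailsAtOne
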